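import Pool.Agent.H7.AAE2.AL1

/-! # AAE2, module AL2: Lemma A -/

set_option autoImplicit false

open Polynomial

namespace Pool.Agent.H85.AAE2

open Pool.Agent.H71.AAE

universe u

section alg

variable {k : Type u} [Field k] {N m : ℕ}
  (φ : (MvPolynomial (Fin N) k)[X] →ₐ[k] MvPolynomial (Fin m) k)
  {s p : MvPolynomial (Fin N) k}

/-- the coefficients of a polynomial are mapped by `φ`, the variable is kept -/
noncomputable def thm : (MvPolynomial (Fin N) k)[X] →+* (MvPolynomial (Fin m) k)[X] :=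
  Polynomial.mapRingHom
    ((φ : (MvPolynomial (Fin N) k)[X] →+* MvPolynomial (Fin m) k).comp C)

theorem thm_C (r : MvPolynomial (Fin N) k) : thm φ (C r) = C (φ (C r)) := by
  simp [thm]

theorem thm_X : thm φ X = X := by
  simp [thm]

/-- the value of `θ(x)` at `s - g` is `ψ(x)` -/
theorem thm_eval (x : (MvPolynomial (Fin N) k)[X]) :
    (thm φ x).eval (φ (C s) - φ X) = phi' φ s x := by
  have h1 : phi' φ s = (Polynomial.evalRingHom (φ (C s) - φ X)).comp (thm φ) := by
    apply Polynomial.ringHom_ext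
    · intro r
      rw [phi'_C, RingHom.comp_apply, thm_C]
      simp
    · rw [phi'_X, RingHom.comp_apply, thm_X]
      simp
  rw [h1]
  simp

variable {φ}

theorem thm_aa (hg : φ X ^ 2 = φ (C s) * φ X - φ (C p)) :
    thm φ (aa s p) = (X - C (φ X)) * (X - C (φ (C s) - φ X)) := by
  unfold aa
  rw [map_add, map_sub, map_pow, map_mul, thm_X, thm_C, thm_C]
  have h1 : φ (C p) = φ X * (φ (C s) - φ X) := by linear_combination hg
  rw [h1]
  simp only [C_mul, C_sub]
  ring

/-- division by `T - g` for the elements of the kernel -/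
theorem exists_sharp (hg : φ X ^ 2 = φ (C s) * φ X - φ (C p))
    (hS : ∀ b, ∃ α β : MvPolynomial (Fin N) k, b = φ (C α) + φ (C β) * φ X)
    {h : (MvPolynomial (Fin N) k)[X]} (hh : φ h = 0) :
    ∃ y : (MvPolynomial (Fin m) k)[X], thm φ h = (X - C (φ X)) * y ∧
      y.eval (φ (C s) - φ X) ∈ cond φ := by
  obtain ⟨q, h₁, h₀, rfl⟩ := decomp s p h
  have h1 := phi_rem hg hh
  refine ⟨thm φ q * (X - C (φ (C s) - φ X)) + C (φ (C h₁)), ?_, ?_⟩
  · rw [map_add, map_mul, thm_aa hg, map_add, map_mul, thm_C, thm_C, thm_X, h1]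
    simp only [C_neg, C_mul]
    ring
  · have h2 := Th_mem φ hg hS hh
    rw [Th_decomp] at h2
    simpa using h2

theorem exists_sharp_sq (hg : φ X ^ 2 = φ (C s) * φ X - φ (C p))
    (hS : ∀ b, ∃ α β : MvPolynomial (Fin N) k, b = φ (C α) + φ (C β) * φ X)
    {h : (MvPolynomial (Fin N) k)[X]} (hh : h ∈ (RingHom.ker φ) ^ 2) :
    ∃ y : (MvPolynomial (Fin m) k)[X], thm φ h = (X - C (φ X)) * y ∧
      (derivative y).eval (φ (C s) - φ X) ∈ cond φ := by
  rw [pow_two] at hh
  induction hh using Submodule.mul_induction_on' with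
  | mem_mul_mem a ha b hb =>
    obtain ⟨y, hy, hy'⟩ := exists_sharp hg hS (RingHom.mem_ker.1 ha)
    obtain ⟨z, hz, hz'⟩ := exists_sharp hg hS (RingHom.mem_ker.1 hb)
    refine ⟨(X - C (φ X)) * (y * z), ?_, ?_⟩
    · rw [map_mul, hy, hz]
      ring
    · rw [derivative_mul, derivative_mul]
      simp only [eval_add, eval_mul]
      refine Ideal.add_mem _ ?_ (Ideal.mul_mem_left _ _ (Ideal.add_mem _ ?_ ?_))
      · exact Ideal.mul_mem_left _ _ (Ideal.mul_mem_right _ _ hy')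
      · exact Ideal.mul_mem_left _ _ hz'
      · exact Ideal.mul_mem_right _ _ hy'
  | add x _ y _ hx hy =>
    obtain ⟨a, ha, ha'⟩ := hx
    obtain ⟨b, hb, hb'⟩ := hy
    refine ⟨a + b, by rw [map_add, ha, hb]; ring, ?_⟩
    rw [derivative_add, eval_add]
    exact Ideal.add_mem _ ha' hb'

variable (φ)

/-- Lemma A for the conjugate homomorphism -/
theorem lemma_A' (hg : φ X ^ 2 = φ (C s) * φ X - φ (C p))
    (hS : ∀ b, ∃ α β : MvPolynomial (Fin N) k, b = φ (C α) + φ (C β) * φ X)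
    {r : ℕ} (e : Fin r → (MvPolynomial (Fin N) k)[X]) (he : ∀ i, φ (e i) = 0)
    (α : Fin r → (MvPolynomial (Fin N) k)[X])
    (h : aa s p - ∑ i, α i * e i ∈ (RingHom.ker φ) ^ 2) :
    Ideal.span (Set.range fun i => phi' φ s (α i)) ⊔ cond φ = ⊤ := by
  choose y hy hy' using fun i => exists_sharp (s := s) hg hS (he i)
  obtain ⟨z, hz, hz'⟩ := exists_sharp_sq hg hS h
  have h1 : (X - C (φ X)) * (X - C (φ (C s) - φ X)) =
      (X - C (φ X)) * (∑ i, thm φ (α i) * y i + z) := by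
    rw [← thm_aa hg, mul_add, ← hz, map_sub, map_sum, Finset.mul_sum]
    have : ∀ i, (X - C (φ X)) * (thm φ (α i) * y i) = thm φ (α i * e i) := by
      intro i
      rw [map_mul, hy i]
      ring
    rw [Finset.sum_congr rfl fun i _ => this i]
    ring
  have h2 : (X - C (φ (C s) - φ X) : (MvPolynomial (Fin m) k)[X]) =
      ∑ i, thm φ (α i) * y i + z :=
    mul_left_cancel₀ (X_sub_C_ne_zero _) h1
  have h3 := congrArg (fun P : (MvPolynomial (Fin m) k)[X] =>
    (derivative P).eval (φ (C s) - φ X)) h2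
  simp only [derivative_sub, derivative_X, derivative_C, sub_zero, eval_one, derivative_add,
    derivative_sum, derivative_mul, eval_add, eval_finsetSum, eval_mul, thm_eval] at h3
  rw [Ideal.eq_top_iff_one, h3]
  refine Ideal.add_mem _ (Ideal.sum_mem _ fun i _ => Ideal.add_mem _ ?_ ?_) ?_
  · exact Ideal.mem_sup_right (Ideal.mul_mem_left _ _ (hy' i))
  · exact Ideal.mem_sup_left (Ideal.mul_mem_right _ _ (Ideal.subset_span ⟨i, rfl⟩))
  · exact Ideal.mem_sup_right hz'

/-- Lemma A -/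
theorem lemma_A (hφ : Function.Surjective φ) (hg : φ X ^ 2 = φ (C s) * φ X - φ (C p))
    (hS : ∀ b, ∃ α β : MvPolynomial (Fin N) k, b = φ (C α) + φ (C β) * φ X)
    {r : ℕ} (e : Fin r → (MvPolynomial (Fin N) k)[X]) (he : ∀ i, φ (e i) = 0)
    (α : Fin r → (MvPolynomial (Fin N) k)[X])
    (h : aa s p - ∑ i, α i * e i ∈ (RingHom.ker φ) ^ 2) :
    Ideal.span (Set.range fun i => φ (α i)) ⊔ cond φ = ⊤ := by
  obtain ⟨ι, -, h2, h3⟩ := exists_iota' φ hφ hg hS
  have h4 : (1 : MvPolynomial (Fin m) k) ∈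
      Ideal.span (Set.range fun i => phi' φ s (α i)) ⊔ cond φ := by
    rw [lemma_A' φ hg hS e he α h]
    trivial
  have h5 := Ideal.mem_map_of_mem ι h4
  rw [map_one, Ideal.map_sup] at h5
  have h6 : Ideal.map ι (cond φ) = ⊥ := by
    rw [Ideal.map_eq_bot_iff_le_ker]
    intro x hx
    exact RingHom.mem_ker.2 (h3 x hx)
  have h7 : Ideal.map ι (Ideal.span (Set.range fun i => phi' φ s (α i))) =
      Ideal.map (Ideal.Quotient.mk (cond φ)) (Ideal.span (Set.range fun i => φ (α i))) := by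
    rw [Ideal.map_span, Ideal.map_span]
    congr 1
    ext x
    constructor
    · rintro ⟨_, ⟨i, rfl⟩, rfl⟩
      exact ⟨_, ⟨i, rfl⟩, (h2 (α i)).symm⟩
    · rintro ⟨_, ⟨i, rfl⟩, rfl⟩
      exact ⟨_, ⟨i, rfl⟩, h2 (α i)⟩
  rw [h6, h7, sup_bot_eq] at h5
  obtain ⟨x, hx, hx'⟩ := (Ideal.mem_map_iff_of_surjective _ Ideal.Quotient.mk_surjective).1 h5
  rw [Ideal.eq_top_iff_one]
  have h8 : (1 : MvPolynomial (Fin m) k) - x ∈ cond φ := by
    rw [← Ideal.Quotient.eq_zero_iff_mem, map_sub, map_one, hx', sub_self]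
  have h9 : (1 : MvPolynomial (Fin m) k) = x + (1 - x) := by ring
  rw [h9]
  exact Ideal.add_mem _ (Ideal.mem_sup_left hx) (Ideal.mem_sup_right h8)

end alg

end Pool.Agent.H85.AAE2
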