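import Pool.Agent.H85.AAE2.Defs
import Pool.Agent.H71.AAE.M2

/-! # AAE2, module AL1: basics of the map Theta -/

set_option autoImplicit false

open Polynomial

namespace Pool.Agent.H85.AAE2

open Pool.Agent.H71.AAE

universe u

section alg

variable {k : Type u} [Field k] {N m : ℕ}
  (φ : (MvPolynomial (Fin N) k)[X] →ₐ[k] MvPolynomial (Fin m) k)
  {s p : MvPolynomial (Fin N) k}

theorem aa_degree (s p : MvPolynomial (Fin N) k) : (aa s p).degree = 2 := by
  have : aa s p = X ^ 2 + (C (-s) * X + C p) := by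
    unfold aa
    rw [C_neg]
    ring
  rw [this, degree_add_eq_left_of_degree_lt]
  · simp
  · rw [degree_X_pow]
    exact lt_of_le_of_lt degree_linear_le (by norm_num)

/-- the remainder of `q a + h₁ T + h₀` -/
theorem mod_aa (q : (MvPolynomial (Fin N) k)[X]) (h₁ h₀ : MvPolynomial (Fin N) k) :
    (q * aa s p + (C h₁ * X + C h₀)) %ₘ aa s p = C h₁ * X + C h₀ := by
  have h1 := div_modByMonic_unique (f := q * aa s p + (C h₁ * X + C h₀)) (g := aa s p) q
    (C h₁ * X + C h₀) (aa_monic s p) ⟨by ring, by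
      rw [aa_degree]
      exact lt_of_le_of_lt degree_linear_le (by norm_num)⟩
  exact h1.2

/-- `Theta` in terms of a decomposition -/
theorem Th_decomp (q : (MvPolynomial (Fin N) k)[X]) (h₁ h₀ : MvPolynomial (Fin N) k) :
    Th (φ : (MvPolynomial (Fin N) k)[X] →+* MvPolynomial (Fin m) k) (aa s p) (q * aa s p + (C h₁ * X + C h₀)) =
      φ (C h₁) := by
  unfold Th
  rw [mod_aa]
  simp

theorem Th_add (x y : (MvPolynomial (Fin N) k)[X]) :
    Th (φ : (MvPolynomial (Fin N) k)[X] →+* MvPolynomial (Fin m) k) (aa s p) (x + y) =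
      Th (φ : (MvPolynomial (Fin N) k)[X] →+* MvPolynomial (Fin m) k) (aa s p) x +
        Th (φ : (MvPolynomial (Fin N) k)[X] →+* MvPolynomial (Fin m) k) (aa s p) y := by
  unfold Th
  rw [add_modByMonic, coeff_add, C_add, map_add]

theorem Th_zero : Th (φ : (MvPolynomial (Fin N) k)[X] →+* MvPolynomial (Fin m) k) (aa s p) 0 = 0 := by
  unfold Th
  simp

theorem Th_neg (x : (MvPolynomial (Fin N) k)[X]) :
    Th (φ : (MvPolynomial (Fin N) k)[X] →+* MvPolynomial (Fin m) k) (aa s p) (-x) =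
      - Th (φ : (MvPolynomial (Fin N) k)[X] →+* MvPolynomial (Fin m) k) (aa s p) x := by
  have h1 := Th_add φ (s := s) (p := p) x (-x)
  rw [add_neg_cancel, Th_zero] at h1
  linear_combination -h1

theorem Th_sub (x y : (MvPolynomial (Fin N) k)[X]) :
    Th (φ : (MvPolynomial (Fin N) k)[X] →+* MvPolynomial (Fin m) k) (aa s p) (x - y) =
      Th (φ : (MvPolynomial (Fin N) k)[X] →+* MvPolynomial (Fin m) k) (aa s p) x -
        Th (φ : (MvPolynomial (Fin N) k)[X] →+* MvPolynomial (Fin m) k) (aa s p) y := by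
  rw [sub_eq_add_neg, Th_add, Th_neg, sub_eq_add_neg]

theorem Th_sum {ι : Type*} (t : Finset ι) (x : ι → (MvPolynomial (Fin N) k)[X]) :
    Th (φ : (MvPolynomial (Fin N) k)[X] →+* MvPolynomial (Fin m) k) (aa s p) (∑ i ∈ t, x i) =
      ∑ i ∈ t, Th (φ : (MvPolynomial (Fin N) k)[X] →+* MvPolynomial (Fin m) k) (aa s p) (x i) := by
  classical
  induction t using Finset.induction_on with
  | empty => simp [Th_zero]
  | insert j t hj ih => rw [Finset.sum_insert hj, Finset.sum_insert hj, Th_add, ih]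

variable {φ}

/-- relation between the two coefficients of the remainder of an element of the kernel -/
theorem phi_rem (hg : φ X ^ 2 = φ (C s) * φ X - φ (C p)) {q : (MvPolynomial (Fin N) k)[X]}
    {h₁ h₀ : MvPolynomial (Fin N) k} (hh : φ (q * aa s p + (C h₁ * X + C h₀)) = 0) :
    φ (C h₀) = -(φ (C h₁) * φ X) := by
  rw [map_add, map_mul, phi_aa hg, mul_zero, zero_add, map_add, map_mul] at hh
  linear_combination hh

variable (φ)

/-- `a ↦ 0` -/
theorem Th_aa : Th (φ : (MvPolynomial (Fin N) k)[X] →+* MvPolynomial (Fin m) k) (aa s p) (aa s p) = 0 := by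
  have h1 := Th_decomp φ (s := s) (p := p) 1 0 0
  simpa using h1

/-- `Theta` of a polynomial of degree at most one -/
theorem Th_lin (h₁ h₀ : MvPolynomial (Fin N) k) :
    Th (φ : (MvPolynomial (Fin N) k)[X] →+* MvPolynomial (Fin m) k) (aa s p) (C h₁ * X + C h₀) = φ (C h₁) := by
  have h1 := Th_decomp φ (s := s) (p := p) 0 h₁ h₀
  simpa using h1

theorem Th_mem (hg : φ X ^ 2 = φ (C s) * φ X - φ (C p))
    (hS : ∀ b, ∃ α β : MvPolynomial (Fin N) k, b = φ (C α) + φ (C β) * φ X)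
    {h : (MvPolynomial (Fin N) k)[X]} (hh : φ h = 0) :
    Th (φ : (MvPolynomial (Fin N) k)[X] →+* MvPolynomial (Fin m) k) (aa s p) h ∈ cond φ := by
  obtain ⟨q, h₁, h₀, rfl⟩ := decomp s p h
  have h1 := phi_rem hg hh
  rw [Th_decomp]
  refine mem_cond_of hS (r := h₁) (r' := -h₀) rfl ?_
  rw [C_neg, map_neg, h1, neg_neg]

theorem Th_mul (hg : φ X ^ 2 = φ (C s) * φ X - φ (C p)) (x : (MvPolynomial (Fin N) k)[X])
    {h : (MvPolynomial (Fin N) k)[X]} (hh : φ h = 0) :
    Th (φ : (MvPolynomial (Fin N) k)[X] →+* MvPolynomial (Fin m) k) (aa s p) (x * h) =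
      phi' φ s x * Th (φ : (MvPolynomial (Fin N) k)[X] →+* MvPolynomial (Fin m) k) (aa s p) h := by
  obtain ⟨q, h₁, h₀, rfl⟩ := decomp s p h
  obtain ⟨q', x₁, x₀, rfl⟩ := decomp s p x
  have h1 := phi_rem hg hh
  rw [Th_decomp]
  have h2 : (q' * aa s p + (C x₁ * X + C x₀)) * (q * aa s p + (C h₁ * X + C h₀)) =
      (q' * (q * aa s p + (C h₁ * X + C h₀)) + (C x₁ * X + C x₀) * q + C (x₁ * h₁)) * aa s p +
        (C (x₁ * h₁ * s + x₁ * h₀ + x₀ * h₁) * X + C (x₀ * h₀ - x₁ * h₁ * p)) := by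
    simp only [C_add, C_mul, C_sub]
    unfold aa
    ring
  rw [h2, Th_decomp, map_add (phi' φ s), map_mul (phi' φ s), phi'_aa hg, mul_zero, zero_add,
    map_add (phi' φ s), map_mul (phi' φ s), phi'_X, phi'_C, phi'_C]
  simp only [map_add, map_mul, h1]
  ring

/-- `ψ(h) = u Th(h)` on the kernel -/
theorem phi'_eq (hg : φ X ^ 2 = φ (C s) * φ X - φ (C p)) {h : (MvPolynomial (Fin N) k)[X]}
    (hh : φ h = 0) :
    phi' φ s h = uu φ s * Th (φ : (MvPolynomial (Fin N) k)[X] →+* MvPolynomial (Fin m) k) (aa s p) h := by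
  obtain ⟨q, h₁, h₀, rfl⟩ := decomp s p h
  have h1 := phi_rem hg hh
  rw [Th_decomp, map_add, map_mul, phi'_aa hg, mul_zero, zero_add, map_add, map_mul, phi'_C,
    phi'_C, phi'_X, h1]
  unfold uu
  ring

/-- products of elements of the kernel -/
theorem Th_mul_ker (hg : φ X ^ 2 = φ (C s) * φ X - φ (C p)) {h h' : (MvPolynomial (Fin N) k)[X]}
    (hh : φ h = 0) (hh' : φ h' = 0) :
    Th (φ : (MvPolynomial (Fin N) k)[X] →+* MvPolynomial (Fin m) k) (aa s p) (h * h') =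
      uu φ s * Th (φ : (MvPolynomial (Fin N) k)[X] →+* MvPolynomial (Fin m) k) (aa s p) h *
        Th (φ : (MvPolynomial (Fin N) k)[X] →+* MvPolynomial (Fin m) k) (aa s p) h' := by
  rw [Th_mul φ hg h hh', phi'_eq φ hg hh]

/-- every element of the conductor is `Theta` of an element of degree one of the kernel -/
theorem exists_Th_eq {β : MvPolynomial (Fin m) k} (hβ : β ∈ cond φ) :
    ∃ r r' : MvPolynomial (Fin N) k, φ (C r) = β ∧ φ (C r') = β * φ X ∧
      φ (C r * X - C r') = 0 ∧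
      Th (φ : (MvPolynomial (Fin N) k)[X] →+* MvPolynomial (Fin m) k) (aa s p) (C r * X - C r') = β ∧
      φ (derivative (C r * X - C r')) = β := by
  obtain ⟨r, hr⟩ := hβ 1
  obtain ⟨r', hr'⟩ := hβ (φ X)
  rw [mul_one] at hr
  refine ⟨r, r', hr, hr', ?_, ?_, ?_⟩
  · rw [map_sub, map_mul, hr, hr', sub_self]
  · have h1 := Th_lin φ (s := s) (p := p) r (-r')
    rw [C_neg, ← sub_eq_add_neg, hr] at h1
    exact h1
  · simp [derivative_mul, hr]

/-- `D(h) = Th(h) - u φ(q)` -/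
theorem exists_D (hg : φ X ^ 2 = φ (C s) * φ X - φ (C p)) (h : (MvPolynomial (Fin N) k)[X]) :
    ∃ q : (MvPolynomial (Fin N) k)[X], ∃ h₁ h₀ : MvPolynomial (Fin N) k,
      h = q * aa s p + (C h₁ * X + C h₀) ∧
      Th (φ : (MvPolynomial (Fin N) k)[X] →+* MvPolynomial (Fin m) k) (aa s p) h = φ (C h₁) ∧
      φ (derivative h) = Th (φ : (MvPolynomial (Fin N) k)[X] →+* MvPolynomial (Fin m) k) (aa s p) h -
        φ q * uu φ s := by
  obtain ⟨q, h₁, h₀, rfl⟩ := decomp s p h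
  exact ⟨q, h₁, h₀, rfl, Th_decomp φ q h₁ h₀, by rw [derivative_decomp q h₁ h₀ hg, Th_decomp]⟩

/-- the kernel of `Theta` on the kernel of `φ` -/
theorem of_Th_eq_zero (hg : φ X ^ 2 = φ (C s) * φ X - φ (C p))
    {h : (MvPolynomial (Fin N) k)[X]} (hh : φ h = 0)
    (h0 : Th (φ : (MvPolynomial (Fin N) k)[X] →+* MvPolynomial (Fin m) k) (aa s p) h = 0) :
    ∃ q : (MvPolynomial (Fin N) k)[X], ∃ ν ν' : MvPolynomial (Fin N) k,
      h = q * aa s p + (C ν * X + C ν') ∧ φ (C ν) = 0 ∧ φ (C ν') = 0 := by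
  obtain ⟨q, h₁, h₀, rfl⟩ := decomp s p h
  have h1 := phi_rem hg hh
  rw [Th_decomp] at h0
  exact ⟨q, h₁, h₀, rfl, h0, by rw [h1, h0, zero_mul, neg_zero]⟩

/-- `Theta` maps the ideal `(c^l) I` of `A` into `c^(l+1)`, as `ψ` maps `φ⁻¹(c)` into `c` -/
theorem phi'_comp (x : (MvPolynomial (Fin N) k)[X]) :
    phi' φ s x = φ (x.comp (C s - X)) := by
  have h1 : phi' φ s = (φ : (MvPolynomial (Fin N) k)[X] →+* MvPolynomial (Fin m) k).comp
      (Polynomial.compRingHom (C s - X)) := by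
    apply Polynomial.ringHom_ext
    · intro r
      rw [phi'_C]
      simp
    · rw [phi'_X]
      simp
  rw [h1]
  simp

theorem phi'_comp' (x : (MvPolynomial (Fin N) k)[X]) :
    phi' φ s (x.comp (C s - X)) = φ x := by
  rw [phi'_comp, comp_assoc]
  congr 1
  have h1 : (C s - X : (MvPolynomial (Fin N) k)[X]).comp (C s - X) = X := by
    simp
  rw [h1, comp_X]

/-- the reduction `ι : B → B / c` with `ι φ = ψ` and `ι ψ = φ` modulo `c`, `ι c = 0` -/
theorem exists_iota' (hφ : Function.Surjective φ) (hg : φ X ^ 2 = φ (C s) * φ X - φ (C p))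
    (hS : ∀ b, ∃ α β : MvPolynomial (Fin N) k, b = φ (C α) + φ (C β) * φ X) :
    ∃ ι : MvPolynomial (Fin m) k →+* MvPolynomial (Fin m) k ⧸ cond φ,
      (∀ h, ι (φ h) = Ideal.Quotient.mk (cond φ) (phi' φ s h)) ∧
      (∀ h, ι (phi' φ s h) = Ideal.Quotient.mk (cond φ) (φ h)) ∧
      ∀ x ∈ cond φ, ι x = 0 := by
  have hker : RingHom.ker (φ : (MvPolynomial (Fin N) k)[X] →+* MvPolynomial (Fin m) k) ≤
      RingHom.ker ((Ideal.Quotient.mk (cond φ)).comp (phi' φ s)) := by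
    intro h hh
    rw [RingHom.mem_ker, RingHom.comp_apply, Ideal.Quotient.eq_zero_iff_mem,
      phi'_eq φ hg (RingHom.mem_ker.1 hh)]
    exact Ideal.mul_mem_left _ _ (Th_mem φ hg hS (RingHom.mem_ker.1 hh))
  let ι := RingHom.liftOfSurjective
    (φ : (MvPolynomial (Fin N) k)[X] →+* MvPolynomial (Fin m) k) hφ
    ⟨(Ideal.Quotient.mk (cond φ)).comp (phi' φ s), hker⟩
  have h1 : ∀ h, ι (φ h) = Ideal.Quotient.mk (cond φ) (phi' φ s h) := fun h =>
    RingHom.liftOfSurjective_comp_apply _ _ _ h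
  refine ⟨ι, h1, fun h => ?_, fun x hx => ?_⟩
  · rw [phi'_comp, h1, phi'_comp']
  · obtain ⟨r, hr⟩ := hx 1
    rw [mul_one] at hr
    rw [← hr, h1, phi'_C, hr]
    exact Ideal.Quotient.eq_zero_iff_mem.2 hx

/-- `ψ` respects the powers of the conductor -/
theorem phi'_mem_cond (x : (MvPolynomial (Fin N) k)[X]) (hx : φ x ∈ cond φ)
    (hφ : Function.Surjective φ) (hg : φ X ^ 2 = φ (C s) * φ X - φ (C p))
    (hS : ∀ b, ∃ α β : MvPolynomial (Fin N) k, b = φ (C α) + φ (C β) * φ X) :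
    phi' φ s x ∈ cond φ := by
  obtain ⟨ι, h1, -, h3⟩ := exists_iota' φ hφ hg hS
  have h4 := h1 x
  rw [h3 _ hx] at h4
  exact Ideal.Quotient.eq_zero_iff_mem.1 h4.symm

end alg

end Pool.Agent.H85.AAE2
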