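import Pool.Agent.H85.AAE2.Defs
import Pool.Agent.H71.AAE.U

/-! # AAE2, module STE: the key lemma from its induction step -/

set_option autoImplicit false

open Polynomial

namespace Pool.Agent.H85.AAE2

open Pool.Agent.H71.AAE

universe u

section transport

variable {B B' : Type u} [CommRing B] [CommRing B']

theorem ste_tl_map {r : ℕ} (f : B →+* B') (d : Fin (r + 1) → B) :
    (tl d).map f = tl (fun i => f (d i)) := by
  unfold tl
  rw [Ideal.map_span, ← Set.range_comp]
  rfl

theorem ste_rmul_map {r : ℕ} (f : B →+* B') (d : Fin r → B) (E : (Matrix (Fin r) (Fin r) B)ˣ) :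
    (fun i => f (rmul d E i)) = rmul (fun i => f (d i)) (mapU f E) := by
  funext i
  unfold rmul
  rw [coe_mapU, RingHom.map_vecMul]
  rfl

theorem ste_rmul_one {r : ℕ} (d : Fin r → B) : rmul d 1 = d := by
  unfold rmul
  rw [Units.val_one, Matrix.vecMul_one]

theorem ste_cong_one {r : ℕ} (b : Ideal B) : Cong b (1 : (Matrix (Fin r) (Fin r) B)ˣ) := by
  intro i j
  rw [Units.val_one, sub_self]
  exact Submodule.zero_mem _

theorem ste_transport {r : ℕ} (e : B ≃+* B') {b c : Ideal B} {d : Fin (r + 3) → B}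
    (H : ∃ E' : (Matrix (Fin (r + 3)) (Fin (r + 3)) B')ˣ, Cong (b.map (e : B →+* B')) E' ∧
      tl (rmul (fun i => (e : B →+* B') (d i)) E') = c.map (e : B →+* B')) :
    ∃ E : (Matrix (Fin (r + 3)) (Fin (r + 3)) B)ˣ, Cong b E ∧ tl (rmul d E) = c := by
  obtain ⟨E', h1, h2⟩ := H
  have hcm : ∀ I : Ideal B, (I.map (e : B →+* B')).comap (e : B →+* B') = I := fun I =>
    Ideal.comap_map_of_bijective (e : B →+* B') e.bijective
  have hinj : ∀ I J : Ideal B, I.map (e : B →+* B') = J.map (e : B →+* B') → I = J := by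
    intro I J h
    rw [← hcm I, h, hcm]
  have h5 : mapU (e : B →+* B') (mapU (e.symm : B' →+* B) E') = E' := by
    rw [mapU_comp]
    have h6 : ((e : B →+* B').comp (e.symm : B' →+* B)) = RingHom.id B' := by
      ext x
      exact e.apply_symm_apply x
    rw [h6, mapU_id]
  refine ⟨mapU (e.symm : B' →+* B) E', ?_, ?_⟩
  · intro i j
    have h3 := h1 i j
    have h4 : (e : B →+* B') (((mapU (e.symm : B' →+* B) E' :
        (Matrix (Fin (r + 3)) (Fin (r + 3)) B)ˣ) : Matrix (Fin (r + 3)) (Fin (r + 3)) B) i j -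
        (1 : Matrix (Fin (r + 3)) (Fin (r + 3)) B) i j) ∈ b.map (e : B →+* B') := by
      rw [map_sub, coe_mapU, Matrix.map_apply]
      have h6 : (e : B →+* B') ((1 : Matrix (Fin (r + 3)) (Fin (r + 3)) B) i j) =
          (1 : Matrix (Fin (r + 3)) (Fin (r + 3)) B') i j := by
        rw [Matrix.one_apply, Matrix.one_apply]
        split_ifs <;> simp
      rw [h6]
      have h7 : (e : B →+* B') ((e.symm : B' →+* B)
          ((E' : Matrix (Fin (r + 3)) (Fin (r + 3)) B') i j)) =
          (E' : Matrix (Fin (r + 3)) (Fin (r + 3)) B') i j := e.apply_symm_apply _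
      rw [h7]
      exact h3
    have h8 := Ideal.mem_comap.2 h4
    rwa [hcm] at h8
  · apply hinj
    rw [ste_tl_map, ste_rmul_map, h5, h2]

end transport

/-- transport of the dimension condition -/
theorem ste_trLE_transport {k : Type u} [Field k] {r : ℕ} {B B' : Type u} [CommRing B] [CommRing B']
    [Algebra k B] [Algebra k B'] (e : B ≃ₐ[k] B') {b : Ideal B} (h : TrLE k r (B ⧸ b))
    (b' : Ideal B') (hb : b.map (e : B →+* B') ≤ b') :
    TrLE k r (B' ⧸ b') := by
  have h1 : b ≤ b'.comap (e : B →ₐ[k] B') := by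
    intro x hx
    exact hb (Ideal.mem_map_of_mem _ hx)
  intro x
  have h2 : ∀ i, ∃ y : B, Ideal.Quotient.mk b' (e y) = x i := by
    intro i
    obtain ⟨z, hz⟩ := Ideal.Quotient.mk_surjective (x i)
    exact ⟨e.symm z, by rw [e.apply_symm_apply, hz]⟩
  choose y hy using h2
  obtain ⟨F, hF, hF'⟩ := h (fun i => Ideal.Quotient.mk b (y i))
  refine ⟨F, hF, ?_⟩
  have h3 := congrArg (Ideal.quotientMapₐ b' (e : B →ₐ[k] B') h1) hF'
  rw [map_zero, MvPolynomial.comp_aeval_apply] at h3
  have h4 : (fun i => (Ideal.quotientMapₐ b' (e : B →ₐ[k] B') h1)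
      (Ideal.Quotient.mk b (y i))) = x := by
    funext i
    rw [← hy i]
    rfl
  rw [← h4]
  exact h3

/-- the case `b = ⊤` -/
theorem ste_top {k : Type u} [Field k] {r m : ℕ} (c : Ideal (MvPolynomial (Fin m) k))
    (hc : c = ⊤) (d : Fin (r + 3) → MvPolynomial (Fin m) k)
    (hd : c ≤ Ideal.span (Set.range d)) :
    ∃ E : (Matrix (Fin (r + 3)) (Fin (r + 3)) (MvPolynomial (Fin m) k))ˣ,
      Cong (⊤ : Ideal (MvPolynomial (Fin m) k)) E ∧ tl (rmul d E) = c := by
  obtain ⟨G, hG⟩ := tr_mv d (top_le_iff.1 (hc ▸ hd))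
  have h01 : (0 : Fin (r + 3)) ≠ 1 := Fin.zero_ne_one
  let t : Matrix.TransvectionStruct (Fin (r + 3)) (MvPolynomial (Fin m) k) := ⟨0, 1, h01, 1⟩
  let U : (Matrix (Fin (r + 3)) (Fin (r + 3)) (MvPolynomial (Fin m) k))ˣ :=
    ⟨t.toMatrix, t.inv.toMatrix, t.mul_inv, t.inv_mul⟩
  have hU : (U : Matrix (Fin (r + 3)) (Fin (r + 3)) (MvPolynomial (Fin m) k)) 0 1 = 1 := by
    show Matrix.transvection 0 1 1 0 1 = 1
    rw [Matrix.transvection, Matrix.add_apply, Matrix.one_apply_ne h01, Matrix.single_apply_same,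
      zero_add]
  refine ⟨G * U, fun i j => Submodule.mem_top, ?_⟩
  rw [hc, Ideal.eq_top_iff_one]
  have h1 : rmul d (G * U) ((0 : Fin (r + 2)).succ) = 1 := by
    unfold rmul
    have hG' : Matrix.vecMul d (G : Matrix (Fin (r + 3)) (Fin (r + 3)) (MvPolynomial (Fin m) k)) =
      Pi.single 0 1 := hG
    rw [Units.val_mul, ← Matrix.vecMul_vecMul, hG', Matrix.single_one_vecMul]
    exact hU
  rw [← h1]
  exact Ideal.subset_span ⟨0, rfl⟩

theorem star_of_step {k : Type u} [Field k] (r : ℕ)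
    (hstep : ∀ m : ℕ, Star k r m → ∀ (b c : Ideal (MvPolynomial (Fin m) k)[X]), b ≤ c →
      TrLE k r ((MvPolynomial (Fin m) k)[X] ⧸ b) → ∀ h : (MvPolynomial (Fin m) k)[X],
      h ∈ b → IsUnit h.leadingCoeff → b ≠ ⊤ → ∀ d : Fin (r + 3) → (MvPolynomial (Fin m) k)[X],
      IsUnit (d 0).leadingCoeff → c ≤ Ideal.span (Set.range d) → c = tl d ⊔ b * c →
      ∃ E : (Matrix (Fin (r + 3)) (Fin (r + 3)) (MvPolynomial (Fin m) k)[X])ˣ,
        Cong b E ∧ tl (rmul d E) = c) (m : ℕ) : Star k r m := by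
  induction m with
  | zero =>
    intro b c hbc hdim d hd hc
    by_cases hb : b = ⊥
    · refine ⟨1, ste_cong_one _, ?_⟩
      rw [ste_rmul_one]
      conv_rhs => rw [hc, hb, Ideal.bot_mul, sup_bot_eq]
    · have hbt : b = ⊤ := by
        obtain ⟨x, hx, hx0⟩ := Submodule.exists_mem_ne_zero_of_ne_bot hb
        refine Ideal.eq_top_of_isUnit_mem _ hx ?_
        rw [MvPolynomial.eq_C_of_isEmpty x] at hx0 ⊢
        refine IsUnit.map MvPolynomial.C (Ne.isUnit ?_)
        intro h
        rw [h, map_zero] at hx0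
        exact hx0 rfl
      subst hbt
      exact ste_top c (top_le_iff.1 hbc) d hd
  | succ m ih =>
    intro b c hbc hdim d hd hc
    by_cases hb : b = ⊥
    · refine ⟨1, ste_cong_one _, ?_⟩
      rw [ste_rmul_one]
      conv_rhs => rw [hc, hb, Ideal.bot_mul, sup_bot_eq]
    by_cases hbt : b = ⊤
    · subst hbt
      exact ste_top c (top_le_iff.1 hbc) d hd
    by_cases hd0 : d 0 = 0
    · refine ⟨1, ste_cong_one _, ?_⟩
      rw [ste_rmul_one]
      refine le_antisymm ?_ (hd.trans ?_)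
      · conv_rhs => rw [hc]
        exact le_sup_left
      · rw [Ideal.span_le]
        rintro _ ⟨i, rfl⟩
        refine Fin.cases ?_ (fun j => ?_) i
        · rw [hd0]
          exact Submodule.zero_mem _
        · exact Ideal.subset_span ⟨j, rfl⟩
    obtain ⟨x, hx, hx0⟩ := Submodule.exists_mem_ne_zero_of_ne_bot hb
    have hf : x * d 0 ≠ 0 := mul_ne_zero hx0 hd0
    let e : MvPolynomial (Fin (m + 1)) k ≃ₐ[k] Polynomial (MvPolynomial (Fin m) k) :=
      (nT (x * d 0)).trans (MvPolynomial.finSuccEquiv k m)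
    have h1 : IsUnit (e (x * d 0)).leadingCoeff := T_leadingcoeff_isUnit (x * d 0) hf
    rw [map_mul, Polynomial.leadingCoeff_mul] at h1
    let e' : MvPolynomial (Fin (m + 1)) k ≃+* Polynomial (MvPolynomial (Fin m) k) :=
      e.toRingEquiv
    refine ste_transport e' ?_
    set f : MvPolynomial (Fin (m + 1)) k →+* Polynomial (MvPolynomial (Fin m) k) := (e' : MvPolynomial (Fin (m + 1)) k →+* Polynomial (MvPolynomial (Fin m) k)) with hf'
    have hcm : ∀ I : Ideal (MvPolynomial (Fin (m + 1)) k), (I.map f).comap f = I := fun I =>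
      Ideal.comap_map_of_bijective f e'.bijective
    have hspan : (Ideal.span (Set.range d)).map f = Ideal.span (Set.range fun i => f (d i)) := by
      rw [Ideal.map_span, ← Set.range_comp]
      rfl
    refine hstep m ih (b.map f) (c.map f) (Ideal.map_mono hbc)
      (ste_trLE_transport e hdim _ le_rfl) (e x) (Ideal.mem_map_of_mem f hx)
      (isUnit_of_mul_isUnit_left h1) ?_ _ (isUnit_of_mul_isUnit_right h1) ?_ ?_
    · intro htop
      have h3 := congrArg (Ideal.comap f) htop
      rw [hcm, Ideal.comap_top] at h3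
      exact hbt h3
    · rw [← hspan]
      exact Ideal.map_mono hd
    · conv_lhs => rw [hc]
      rw [Ideal.map_sup, Ideal.map_mul, ste_tl_map]

end Pool.Agent.H85.AAE2
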