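import Pool.Agent.H7.AAE2.STE
import Pool.Agent.H99.AAE2.STD

/-! # AAE2, module STE: the key lemma -/

set_option autoImplicit false

open Polynomial

namespace Pool.Agent.H85.AAE2

universe u

theorem star {k : Type u} [Field k] (r m : ℕ) : Star k r m :=
  star_of_step r (fun _ ih b c hbc hdim h hb hh hbt d hd0 hd hc =>
    star_step ih b c hbc hdim h hb hh hbt d hd0 hd hc) m

end Pool.Agent.H85.AAE2
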